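import Mathlib
import Pool.Agent.Lib.MP_2ce0dd_pr.Bound
import Pool.Agent.Lib.MP_2ce0dd_pr.Planar
import Pool.Agent.Lib.MP_2ce0dd_pr.Asymp

set_option autoImplicit false

/-!
# Simple random walk on planar graphs of uniform polynomial growth `n^d`, `d > 2`, is subdiffusive

This settles Q1 of MP_2ce0dd_pr positively.
-/

namespace Pool.Agent.Results.MP_2ce0dd_pr.Subdiffusive

universe u

/-- The closed ball `B(v,n)` in the graph distance. -/
def ball {V : Type u} (G : SimpleGraph V) (v : V) (n : ℕ) : Set V := {w | G.dist v w ≤ n}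

/-- Uniform polynomial growth `n^d` with constants `c` and `C`:
`c n^d < |B(v,n)| < C n^d` for every vertex `v` and every `n ≥ 1` (balls being finite). -/
def UniformGrowth {V : Type u} (G : SimpleGraph V) (d c C : ℝ) : Prop :=
  ∀ (v : V) (n : ℕ), 1 ≤ n → (ball G v n).Finite ∧
    c * (n : ℝ) ^ d < ((ball G v n).ncard : ℝ) ∧ ((ball G v n).ncard : ℝ) < C * (n : ℝ) ^ d

/-- `G` is planar: the vertices are distinct points of the plane and the edges are simple arcs
joining their endpoints, which meet vertices only at their endpoints, and two arcs of distinct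
edges have no interior point in common. -/
def IsPlanar {V : Type u} (G : SimpleGraph V) : Prop :=
  ∃ (f : V → ℝ × ℝ) (γ : V → V → ℝ → ℝ × ℝ),
    Function.Injective f ∧
    (∀ u v, G.Adj u v →
      ContinuousOn (γ u v) (Set.Icc 0 1) ∧ Set.InjOn (γ u v) (Set.Icc 0 1) ∧
      γ u v 0 = f u ∧ γ u v 1 = f v ∧ ∀ t ∈ Set.Ioo (0 : ℝ) 1, ∀ w, γ u v t ≠ f w) ∧
    ∀ u v u' v', G.Adj u v → G.Adj u' v' → s(u, v) ≠ s(u', v') →
      ∀ t ∈ Set.Ioo (0 : ℝ) 1, ∀ t' ∈ Set.Ioo (0 : ℝ) 1, γ u v t ≠ γ u' v' t'

open Classical in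
/-- The law of simple random walk started at `o`: `walkLaw G o t v` is the probability that
`X_t = v`, where `X_0 = o` and at each step the walk moves to a uniformly chosen neighbour. -/
noncomputable def walkLaw {V : Type u} (G : SimpleGraph V) (o : V) : ℕ → V → ℝ
  | 0 => fun v => if v = o then 1 else 0
  | t + 1 => fun w => ∑ᶠ u ∈ G.neighborSet w, walkLaw G o t u / ((G.neighborSet u).ncard : ℝ)

/-- The expected distance `E d_G(o, X_t)`. -/
noncomputable def expectedDist {V : Type u} (G : SimpleGraph V) (o : V) (t : ℕ) : ℝ :=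
  ∑ᶠ v, walkLaw G o t v * (G.dist o v : ℝ)

open Pool.Agent.Lib.MP_2ce0dd_pr

lemma walkLaw_eq {V : Type u} {G : SimpleGraph V} [G.LocallyFinite] (hdeg : ∀ v, 0 < G.degree v)
    (o : V) (t : ℕ) (v : V) : walkLaw G o t v = (G.degree v : ℝ) * hl G o t v := by
  classical
  have hncard : ∀ u, ((G.neighborSet u).ncard : ℝ) = (G.degree u : ℝ) := by
    intro u
    rw [Set.ncard_eq_toFinset_card']
    rfl
  induction t generalizing v with
  | zero =>
    simp only [walkLaw, hl]
    by_cases h : v = o
    · subst h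
      have : (G.degree v : ℝ) ≠ 0 := by have := hdeg v; positivity
      simp only [if_true]
      field_simp
    · simp [h]
  | succ t ih =>
    have hd : (G.degree v : ℝ) ≠ 0 := by have := hdeg v; positivity
    simp only [walkLaw, hl]
    rw [mul_div_cancel₀ _ hd, ← SimpleGraph.coe_neighborFinset, finsum_mem_coe_finset]
    refine Finset.sum_congr rfl fun u _ => ?_
    have hu : (G.degree u : ℝ) ≠ 0 := by have := hdeg u; positivity
    rw [ih, hncard, mul_div_assoc, mul_div_cancel₀ _ hu]

/-- **Main theorem.** Simple random walk on a connected planar graph of uniform polynomial growth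
`n^d` with `d > 2` is subdiffusive, with an exponent `α < 1/2` and a constant `K` which depend only
on `d` and on the two growth constants. -/
theorem result (d c C : ℝ) (hd : 2 < d) (hc : 0 < c) :
    ∃ α K : ℝ, α < 1 / 2 ∧ ∀ (V : Type u) (G : SimpleGraph V), G.Connected → IsPlanar G →
      UniformGrowth G d c C → ∀ (o : V) (t : ℕ), 1 ≤ t → expectedDist G o t ≤ K * (t : ℝ) ^ α := by
  classical
  -- normalised constants
  set c1 : ℝ := min c 1 / 2 ^ d with hc1
  set C1 : ℝ := max C 1 with hC1
  have hc1pos : 0 < c1 := div_pos (lt_min hc one_pos) (by positivity)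
  have hC1pos : 0 < C1 := lt_of_lt_of_le one_pos (le_max_right _ _)
  obtain ⟨b, hb3, hb⟩ := exists_b (d := d) hc1pos hC1pos hd
  set κ := kap d c1 C1 b with hκ
  have hκ0 : 0 ≤ κ := by rw [hκ]; unfold kap; positivity
  set β : ℝ := ((24 * b : ℕ) : ℝ) with hβ
  have hβ2 : (2 : ℝ) ≤ β := by
    have : 2 ≤ 24 * b := by omega
    rw [hβ]; exact_mod_cast this
  have hβ1 : ((24 * b + 1 : ℕ) : ℝ) = β + 1 := by rw [hβ]; push_cast; ring
  set Δ : ℝ := C1 * 2 ^ d with hΔ
  have hΔpos : 0 < Δ := by positivity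
  obtain ⟨α, K, hα0, hα, hK0, hmain⟩ := asymp (d := d) (C := C1) (Δ := Δ) (κ := κ) (β := β) hd
    hC1pos hΔpos hκ0 hβ2 (by rw [← hβ1]; exact hb)
  refine ⟨α, K + 1, hα, ?_⟩
  intro V G hconn hplanar hgrowth o t ht
  -- no K33 minor
  have hK : ¬ HasK33Minor G := by
    obtain ⟨f, γ, hf, hγ, hdj⟩ := hplanar
    exact not_hasK33Minor_of_drawing hf (fun u v h => ⟨(hγ u v h).1, (hγ u v h).2.2⟩) hdj
  -- growth in the internal form
  have hball : ∀ v n, gball G v n = ball G v n := fun v n => rfl
  have hball0 : ∀ v, gball G v 0 = {v} := by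
    intro v
    ext w
    constructor
    · intro h
      have h' : G.dist v w ≤ 0 := h
      have h2 : G.dist v w = 0 := by omega
      rw [hconn.dist_eq_zero_iff] at h2
      exact h2.symm
    · intro h
      rw [Set.mem_singleton_iff] at h
      show G.dist v w ≤ 0
      rw [h]; simp
  have hG : Growth G d c1 C1 := by
    refine ⟨hconn, ?_, ?_, ?_⟩
    · intro v n
      rcases Nat.eq_zero_or_pos n with rfl | hn
      · rw [hball0]; exact Set.finite_singleton v
      · exact (hgrowth v n hn).1
    · intro v n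
      rcases Nat.eq_zero_or_pos n with rfl | hn
      · rw [hball0, Set.ncard_singleton]
        simp only [Nat.cast_zero, zero_add, Real.one_rpow, mul_one, Nat.cast_one]
        rw [hc1, div_le_one (by positivity)]
        exact (min_le_right _ _).trans (Real.one_le_rpow (by norm_num) (by linarith))
      · refine le_trans ?_ (hgrowth v n hn).2.1.le
        have hn1 : (1 : ℝ) ≤ n := by exact_mod_cast hn
        have h1 : ((n : ℝ) + 1) ^ d ≤ (2 * (n : ℝ)) ^ d :=
          Real.rpow_le_rpow (by positivity) (by linarith) (by linarith)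
        rw [Real.mul_rpow (by norm_num) (by positivity)] at h1
        calc c1 * ((n : ℝ) + 1) ^ d ≤ c1 * (2 ^ d * (n : ℝ) ^ d) :=
              mul_le_mul_of_nonneg_left h1 hc1pos.le
          _ = min c 1 * (n : ℝ) ^ d := by rw [hc1]; field_simp
          _ ≤ c * (n : ℝ) ^ d := mul_le_mul_of_nonneg_right (min_le_left _ _) (by positivity)
    · intro v n
      rcases Nat.eq_zero_or_pos n with rfl | hn
      · rw [hball0, Set.ncard_singleton]
        simp only [Nat.cast_zero, zero_add, Real.one_rpow, mul_one, Nat.cast_one]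
        exact le_max_right _ _
      · refine (hgrowth v n hn).2.2.le.trans ?_
        calc C * (n : ℝ) ^ d ≤ C1 * (n : ℝ) ^ d :=
              mul_le_mul_of_nonneg_right (le_max_left _ _) (by positivity)
          _ ≤ C1 * ((n : ℝ) + 1) ^ d := by
              apply mul_le_mul_of_nonneg_left _ hC1pos.le
              exact Real.rpow_le_rpow (by positivity) (by linarith) (by linarith)
  -- local finiteness and degrees
  have hnfin : ∀ v, (G.neighborSet v).Finite := by
    intro v
    refine (hG.fin v 1).subset ?_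
    intro w hw
    show G.dist v w ≤ 1
    rw [SimpleGraph.dist_eq_one_iff_adj.2 hw]
  let _ : G.LocallyFinite := fun v => (hnfin v).fintype
  have hnt : Nontrivial V := by
    by_contra hnt
    rw [not_nontrivial_iff_subsingleton] at hnt
    obtain ⟨n, hn⟩ := exists_nat_gt (max 1 (1 / c))
    have hn1 : (1 : ℝ) < n := lt_of_le_of_lt (le_max_left _ _) hn
    have hnc : 1 / c < (n : ℝ) := lt_of_le_of_lt (le_max_right _ _) hn
    have h1 := (hgrowth o n (by exact_mod_cast hn1.le)).2.1
    have h2 : (ball G o n).ncard ≤ 1 := Set.ncard_le_one_of_subsingleton _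
    have h3 : (n : ℝ) ≤ (n : ℝ) ^ d := by
      have := Real.rpow_le_rpow_of_exponent_le hn1.le (show (1 : ℝ) ≤ d by linarith)
      rwa [Real.rpow_one] at this
    have h4 : 1 < c * (n : ℝ) := by
      rw [div_lt_iff₀ hc] at hnc; linarith
    have h5 : ((ball G o n).ncard : ℝ) ≤ 1 := by exact_mod_cast h2
    nlinarith
  have hdeg : ∀ v, 0 < G.degree v := fun v => hconn.preconnected.degree_pos_of_nontrivial v
  have hΔb : ∀ v, (G.degree v : ℝ) ≤ Δ := by
    intro v
    have h1 : G.degree v ≤ (gball G v 1).ncard := by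
      rw [Set.ncard_eq_toFinset_card _ (hG.fin v 1), ← SimpleGraph.card_neighborFinset_eq_degree]
      apply Finset.card_le_card
      intro w hw
      rw [SimpleGraph.mem_neighborFinset] at hw
      rw [Set.Finite.mem_toFinset]
      show G.dist v w ≤ 1
      rw [SimpleGraph.dist_eq_one_iff_adj.2 hw]
    calc (G.degree v : ℝ) ≤ ((gball G v 1).ncard : ℝ) := by exact_mod_cast h1
      _ ≤ C1 * (((1 : ℕ) : ℝ) + 1) ^ d := hG.up v 1
      _ = Δ := by rw [hΔ]; norm_num
  -- expected distance as a finite sum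
  have hexp : ∀ (s : ℕ) (Λ : Finset V), (∀ v, G.dist o v ≤ s → v ∈ Λ) →
      expectedDist G o s = Ex G o Λ s (fun v => (G.dist o v : ℝ)) := by
    intro s Λ hΛ
    rw [expectedDist, Ex]
    rw [finsum_eq_sum_of_support_subset (s := Λ)]
    · exact Finset.sum_congr rfl fun v _ => by rw [walkLaw_eq hdeg]
    · intro v hv
      apply hΛ
      apply hl_supp hconn s v
      intro h0
      apply hv
      show walkLaw G o s v * (G.dist o v : ℝ) = 0
      rw [walkLaw_eq hdeg, h0]; simp
  -- even times
  have heven : ∀ m : ℕ, 1 ≤ m → expectedDist G o (2 * m) ≤ K * ((2 * m : ℕ) : ℝ) ^ α := by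
    intro m hm
    set Λ : Finset V := (hG.fin o (2 * m + 2)).toFinset with hΛdef
    have hΛ : ∀ v, G.dist o v ≤ 2 * m + 2 → v ∈ Λ := by
      intro v hv
      rw [hΛdef, Set.Finite.mem_toFinset]
      exact hv
    have hoΛ : o ∈ Λ := hΛ o (by simp)
    set Z := ∑ v ∈ Λ, (G.degree v : ℝ) with hZ
    have hZ1 : 1 ≤ Z := by
      have h1 : (G.degree o : ℝ) ≤ Z :=
        Finset.single_le_sum (f := fun v => (G.degree v : ℝ)) (fun v _ => by positivity) hoΛ
      have h2 : (1 : ℝ) ≤ G.degree o := by exact_mod_cast hdeg o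
      linarith
    have hZ2 : Z ≤ Δ * (C1 * (((2 * m : ℕ) : ℝ) + 3) ^ d) := by
      have h1 : Z ≤ (Λ.card : ℝ) * Δ := by
        rw [hZ]
        refine (Finset.sum_le_sum fun v _ => hΔb v).trans ?_
        rw [Finset.sum_const, nsmul_eq_mul]
      have h2 : (Λ.card : ℝ) ≤ C1 * (((2 * m : ℕ) : ℝ) + 3) ^ d := by
        rw [hΛdef, ← Set.ncard_eq_toFinset_card _ (hG.fin o (2 * m + 2))]
        refine (hG.up o (2 * m + 2)).trans (le_of_eq ?_)
        push_cast
        congr 2
        ring
      calc Z ≤ (Λ.card : ℝ) * Δ := h1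
        _ ≤ (C1 * (((2 * m : ℕ) : ℝ) + 3) ^ d) * Δ := mul_le_mul_of_nonneg_right h2 hΔpos.le
        _ = _ := by ring
    obtain ⟨k, hk⟩ := hmain ((2 * m : ℕ) : ℝ) Z (by
      have : 1 ≤ 2 * m := by omega
      exact_mod_cast this) hZ1 hZ2
    refine le_trans ?_ hk
    rw [hexp (2 * m) Λ (fun v hv => hΛ v (by omega))]
    have h1 := main_bound hG hc1pos hC1pos (by linarith) hK hdeg hΔb o b hb3 k m Λ hΛ
    rw [hβ1] at h1
    have h2 : ((2 * m : ℕ) : ℝ) = 2 * (m : ℝ) := by push_cast; ring
    rw [h2]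
    exact h1
  -- consecutive times
  have hstep : ∀ s : ℕ, expectedDist G o (s + 1) ≤ expectedDist G o s + 1 := by
    intro s
    set Λ : Finset V := (hG.fin o (s + 1)).toFinset with hΛdef
    have hΛ : ∀ v, G.dist o v ≤ s + 1 → v ∈ Λ := by
      intro v hv
      rw [hΛdef, Set.Finite.mem_toFinset]
      exact hv
    rw [hexp (s + 1) Λ hΛ, hexp s Λ (fun v hv => hΛ v (by omega))]
    rw [← sum_prs_snd hconn hdeg hΛ (t := s) (by omega) (fun v => (G.dist o v : ℝ)),
      ← sum_prs_fst hconn hΛ (t := s) le_rfl (fun v => (G.dist o v : ℝ)),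
      ← Ex_one hconn hdeg hΛ (t := s) (by omega),
      ← sum_prs_fst hconn hΛ (t := s) le_rfl (fun _ => 1), ← Finset.sum_add_distrib]
    refine Finset.sum_le_sum fun q hq => ?_
    have hadj : G.Adj q.1 q.2 := (Finset.mem_filter.1 hq).2
    have h1 : G.dist o q.2 ≤ G.dist o q.1 + 1 := by
      have h2 := hconn.dist_triangle (u := o) (v := q.1) (w := q.2)
      rwa [SimpleGraph.dist_eq_one_iff_adj.2 hadj] at h2
    have h2 : (G.dist o q.2 : ℝ) ≤ (G.dist o q.1 : ℝ) + 1 := by exact_mod_cast h1
    rw [← mul_add]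
    exact mul_le_mul_of_nonneg_left h2 (hl_nonneg _ _)
  have h00 : expectedDist G o 0 = 0 := by
    rw [expectedDist]
    apply finsum_eq_zero_of_forall_eq_zero
    intro v
    by_cases hv : v = o
    · rw [hv]; simp
    · simp [walkLaw, hv]
  have ht1 : (1 : ℝ) ≤ t := by exact_mod_cast ht
  have htα : (1 : ℝ) ≤ (t : ℝ) ^ α := Real.one_le_rpow ht1 hα0
  have hKt : 0 ≤ K * (t : ℝ) ^ α := by positivity
  rcases Nat.even_or_odd' t with ⟨m, hm | hm⟩
  · have h1 := heven m (by omega)
    rw [← hm] at h1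
    rw [add_mul, one_mul]
    linarith
  · rcases Nat.eq_zero_or_pos m with rfl | hm0
    · have h1 := hstep 0
      rw [h00] at h1
      have h2 : t = 0 + 1 := by omega
      rw [← h2] at h1
      rw [add_mul, one_mul]
      linarith
    · have h1 := hstep (2 * m)
      rw [← hm] at h1
      have h2 := heven m hm0
      have h3 : ((2 * m : ℕ) : ℝ) ^ α ≤ (t : ℝ) ^ α := by
        apply Real.rpow_le_rpow (by positivity) _ hα0
        have : 2 * m ≤ t := by omega
        exact_mod_cast this
      have h4 := mul_le_mul_of_nonneg_left h3 hK0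
      rw [add_mul, one_mul]
      linarith

end Pool.Agent.Results.MP_2ce0dd_pr.Subdiffusive
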